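import Pool.Agent.TH416.DW.Mob

/-!
# Harnack / Schwarz-Pick along chains of discs
-/

set_option autoImplicit false

namespace Pool.TH332.DW.TH416

open Metric Set Filter Topology ComplexConjugate

/-- the case of one disc with the first point at the center -/
lemma harnack0 {g : ℂ → ℂ} (hg : DifferentiableOn ℂ g (ball 0 1))
    (hp : ∀ z ∈ ball (0 : ℂ) 1, 0 < (g z).re) {b : ℂ} (hb : ‖b‖ < 1) :
    (1 - ‖b‖) * ‖g b - g 0‖ ≤ 2 * ‖b‖ * (g 0).re := by
  have h0 : (0 : ℂ) ∈ ball (0 : ℂ) 1 := mem_ball_self one_pos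
  have hne : ∀ z ∈ ball (0 : ℂ) 1, g z + (starRingEnd ℂ) (g 0) ≠ 0 := by
    intro z hz h
    have h1 := congrArg Complex.re h
    rw [Complex.add_re, Complex.conj_re, Complex.zero_re] at h1
    have h2 := hp z hz
    have h3 := hp 0 h0
    linarith
  have hd : DifferentiableOn ℂ (fun z => (g z - g 0) / (g z + (starRingEnd ℂ) (g 0)))
      (ball 0 1) := (hg.sub_const _).div (hg.add_const _) hne
  have hm : MapsTo (fun z => (g z - g 0) / (g z + (starRingEnd ℂ) (g 0))) (ball 0 1)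
      (closedBall 0 1) := by
    intro z hz
    rw [mem_closedBall_zero_iff, norm_div]
    refine div_le_one_of_le₀ ?_ (norm_nonneg _)
    refine (sq_le_sq₀ (norm_nonneg _) (norm_nonneg _)).1 ?_
    rw [← Complex.normSq_eq_norm_sq, ← Complex.normSq_eq_norm_sq, Complex.normSq_apply,
      Complex.normSq_apply]
    simp only [Complex.add_re, Complex.add_im, Complex.sub_re, Complex.sub_im, Complex.conj_re,
      Complex.conj_im]
    have h1 := mul_pos (hp z hz) (hp 0 h0)
    nlinarith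
  have hs := Complex.norm_le_norm_of_mapsTo_ball hd hm (by simp) hb
  rw [norm_div] at hs
  have hbm : b ∈ ball (0 : ℂ) 1 := mem_ball_iff.2 hb
  have hpos : 0 < ‖g b + (starRingEnd ℂ) (g 0)‖ := norm_pos_iff.2 (hne b hbm)
  rw [div_le_iff₀ hpos] at hs
  have h4 : ‖g b + (starRingEnd ℂ) (g 0)‖ ≤ ‖g b - g 0‖ + 2 * (g 0).re := by
    have e : g b + (starRingEnd ℂ) (g 0) = (g b - g 0) + ((2 * (g 0).re : ℝ) : ℂ) := by
      rw [← Complex.add_conj]
      ring
    rw [e]
    refine (norm_add_le _ _).trans ?_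
    rw [Complex.norm_real, Real.norm_eq_abs, abs_of_pos]
    have := hp 0 h0
    linarith
  have h5 := mul_le_mul_of_nonneg_left h4 (norm_nonneg b)
  nlinarith

/-- the case of one disc -/
lemma harnack1 {f : ℂ → ℂ} (hf : DifferentiableOn ℂ f (ball 0 1))
    (hp : ∀ z ∈ ball (0 : ℂ) 1, 0 < (f z).re) {a b : ℂ} (ha : ‖a‖ < 1) (hb : ‖b‖ < 1) :
    ‖f b - f a‖ ≤ (Real.exp (2 * pdist a b) - 1) * (f a).re := by
  have hd := hf.comp (differentiableOn_mob ha) (mapsTo_mob ha)
  have hβ : ‖mob (-a) b‖ < 1 := norm_mob_lt (by rwa [norm_neg]) hb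
  have h1 := harnack0 hd (fun z hz => hp _ (mapsTo_mob ha hz)) hβ
  simp only [Function.comp] at h1
  rw [mob_neg_mob ha hb, mob_zero, norm_mob_neg] at h1
  rw [exp_pdist ha hb]
  have h2 := pm_lt ha hb
  have h3 : 0 < 1 - pm a b := by linarith
  have e : (1 + pm a b) / (1 - pm a b) - 1 = 2 * pm a b / (1 - pm a b) := by
    rw [div_sub_one h3.ne']
    congr 1
    ring
  rw [e, div_mul_eq_mul_div, le_div_iff₀ h3]
  linarith

end Pool.TH332.DW.TH416

namespace Pool.TH332.DW
open Metric Set Filter Topology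
open Pool.TH332.DW.TH416
variable {E : Type*} [NormedAddCommGroup E] [NormedSpace ℂ E] {Ω : Set E}

theorem half_chain {A : E → ℂ} (hA : DifferentiableOn ℂ A Ω)
    (hp : ∀ z ∈ Ω, 0 < (A z).re) {z w : E} {L : ℝ} (h : DiscChain Ω z w L) :
    ‖A w - A z‖ ≤ (Real.exp (2 * L) - 1) * (A z).re := by
  induction h with
  | nil hz => simp
  | @cons w L φ a b hφ hm ha hb h ih =>
    have ha' := mem_ball_iff.1 ha
    have hb' := mem_ball_iff.1 hb
    have h1 := harnack1 (f := fun ζ => A (φ ζ)) (hA.comp hφ hm) (fun ζ hζ => hp _ (hm hζ))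
      ha' hb'
    set s := pdist a b with hs
    have h2 : (A (φ b)).re ≤ Real.exp (2 * s) * (A (φ a)).re := by
      have h3 : (A (φ b) - A (φ a)).re ≤ ‖A (φ b) - A (φ a)‖ := Complex.re_le_norm _
      rw [Complex.sub_re] at h3
      have h4 : ‖A (φ b) - A (φ a)‖ ≤ (Real.exp (2 * s) - 1) * (A (φ a)).re := h1
      linarith
    have hLnn : 0 ≤ Real.exp (2 * L) - 1 := by
      by_contra hneg
      push Not at hneg
      have h5 := hp _ (hm hb)
      have h6 := norm_nonneg (A w - A (φ b))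
      nlinarith
    calc ‖A w - A (φ a)‖ = ‖(A w - A (φ b)) + (A (φ b) - A (φ a))‖ := by
          congr 1
          ring
      _ ≤ ‖A w - A (φ b)‖ + ‖A (φ b) - A (φ a)‖ := norm_add_le _ _
      _ ≤ (Real.exp (2 * L) - 1) * (A (φ b)).re +
          (Real.exp (2 * s) - 1) * (A (φ a)).re := add_le_add ih h1
      _ ≤ (Real.exp (2 * L) - 1) * (Real.exp (2 * s) * (A (φ a)).re) +
          (Real.exp (2 * s) - 1) * (A (φ a)).re :=
        add_le_add (mul_le_mul_of_nonneg_left h2 hLnn) le_rfl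
      _ = (Real.exp (2 * (s + L)) - 1) * (A (φ a)).re := by
          rw [mul_add, Real.exp_add]
          ring

end Pool.TH332.DW
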