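import Pool.Agent.TH416.DW.Mob

/-!
# A chain of discs can be cut at any length
-/

set_option autoImplicit false

namespace Pool.TH332.DW.TH416

open Metric Set Filter Topology ComplexConjugate

lemma pm_real {e : ℂ} (he : ‖e‖ = 1) {x y : ℝ} (hx0 : 0 ≤ x) (hxy : x ≤ y) (hy : y < 1) :
    pm ((x : ℂ) * e) ((y : ℂ) * e) = (y - x) / (1 - x * y) := by
  unfold pm
  have h1 : (starRingEnd ℂ) e * e = 1 := by
    rw [mul_comm, Complex.mul_conj, Complex.normSq_eq_norm_sq, he]
    norm_num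
  have e1 : (x : ℂ) * e - (y : ℂ) * e = ((x - y : ℝ) : ℂ) * e := by
    push_cast
    ring
  have e2 : 1 - (starRingEnd ℂ) ((x : ℂ) * e) * ((y : ℂ) * e) = ((1 - x * y : ℝ) : ℂ) := by
    rw [map_mul, Complex.conj_ofReal]
    have : (x : ℂ) * (starRingEnd ℂ) e * ((y : ℂ) * e) =
        (x : ℂ) * y * ((starRingEnd ℂ) e * e) := by ring
    rw [this, h1]
    push_cast
    ring
  have h2 : 0 < 1 - x * y := by nlinarith
  rw [e1, e2, norm_div, norm_mul, he, mul_one, Complex.norm_real, Complex.norm_real,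
    Real.norm_eq_abs, Real.norm_eq_abs, abs_of_pos h2, abs_sub_comm, abs_of_nonneg (by linarith)]

lemma pm_zero (z : ℂ) : pm 0 z = ‖z‖ := by
  unfold pm
  simp

/-- a point on the geodesic between `a` and `b` -/
lemma exists_cut {a b : ℂ} (ha : ‖a‖ < 1) (hb : ‖b‖ < 1) {s : ℝ} (hs : 0 ≤ s)
    (hsb : s ≤ pdist a b) : ∃ c : ℂ, ‖c‖ < 1 ∧ pdist a c = s ∧ pdist c b = pdist a b - s := by
  set β : ℂ := mob (-a) b with hβ
  have hβ1 : ‖β‖ < 1 := norm_mob_lt (by rwa [norm_neg]) hb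
  have hβb : mob a β = b := mob_neg_mob ha hb
  have hr : ‖β‖ = pm a b := norm_mob_neg a b
  obtain ⟨e, he, hβe⟩ : ∃ e : ℂ, ‖e‖ = 1 ∧ β = ((‖β‖ : ℝ) : ℂ) * e := by
    by_cases h0 : β = 0
    · exact ⟨1, norm_one, by rw [h0]; simp⟩
    · have hn : ‖β‖ ≠ 0 := norm_ne_zero_iff.2 h0
      refine ⟨((‖β‖ : ℝ) : ℂ)⁻¹ * β, ?_, ?_⟩
      · rw [norm_mul, norm_inv, Complex.norm_real, norm_norm, inv_mul_cancel₀ hn]
      · rw [mul_inv_cancel_left₀]
        exact_mod_cast hn
  set r : ℝ := ‖β‖ with hrdef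
  have hr0 : 0 ≤ r := norm_nonneg _
  -- the parameter
  set x : ℝ := Real.exp (2 * s) with hx
  have hx1 : 1 ≤ x := Real.one_le_exp (by linarith)
  set τ : ℝ := (x - 1) / (x + 1) with hτ
  have hτ0 : 0 ≤ τ := div_nonneg (by linarith) (by linarith)
  have hτ1 : τ < 1 := by
    rw [hτ, div_lt_one (by linarith)]
    linarith
  have hτx : (1 + τ) / (1 - τ) = x := by
    have h1 : x + 1 ≠ 0 := by linarith
    have e1 : 1 + τ = 2 * x / (x + 1) := by
      rw [hτ]
      field_simp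
      ring
    have e2 : 1 - τ = 2 / (x + 1) := by
      rw [hτ]
      field_simp
      ring
    rw [e1, e2, div_div_div_cancel_right₀ h1]
    ring
  have hxr : x ≤ (1 + r) / (1 - r) := by
    rw [hr, ← exp_pdist ha hb, hx]
    exact Real.exp_le_exp.2 (by linarith)
  have hτr : τ ≤ r := by
    have h1 : 0 < 1 - r := by linarith
    rw [← hτx, div_le_div_iff₀ (by linarith) h1] at hxr
    linarith
  have hc0 : ‖((τ : ℝ) : ℂ) * e‖ = τ := by
    rw [norm_mul, he, mul_one, Complex.norm_real, Real.norm_eq_abs, abs_of_nonneg hτ0]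
  have hc1 : ‖((τ : ℝ) : ℂ) * e‖ < 1 := by rwa [hc0]
  refine ⟨mob a (((τ : ℝ) : ℂ) * e), norm_mob_lt ha hc1, ?_, ?_⟩
  · have h1 : pm a (mob a (((τ : ℝ) : ℂ) * e)) = τ := by
      have h2 := pm_mob ha (x := 0) (by simp) hc1
      rw [mob_zero, pm_zero, hc0] at h2
      exact h2
    rw [pdist_eq, h1, hτx, hx, Real.log_exp]
    ring
  · have h1 : pm (mob a (((τ : ℝ) : ℂ) * e)) b = (r - τ) / (1 - τ * r) := by
      have h2 := pm_mob ha hc1 hβ1
      rw [hβb] at h2
      rw [h2]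
      nth_rewrite 1 [hβe]
      exact pm_real he hτ0 hτr hβ1
    rw [pdist_eq, h1, pdist_eq, ← hr]
    have hrr : 0 < 1 - r := by linarith
    have hττ : 0 < 1 - τ := by linarith
    have h3 : 0 < 1 - τ * r := by nlinarith
    have e1 : (1 + (r - τ) / (1 - τ * r)) / (1 - (r - τ) / (1 - τ * r)) =
        ((1 + r) / (1 - r)) / ((1 + τ) / (1 - τ)) := by
      have e2 : 1 + (r - τ) / (1 - τ * r) = ((1 + r) * (1 - τ)) / (1 - τ * r) := by
        rw [eq_div_iff h3.ne', add_mul, div_mul_cancel₀ _ h3.ne']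
        ring
      have e3 : 1 - (r - τ) / (1 - τ * r) = ((1 - r) * (1 + τ)) / (1 - τ * r) := by
        rw [eq_div_iff h3.ne', sub_mul, div_mul_cancel₀ _ h3.ne']
        ring
      rw [e2, e3, div_div_div_cancel_right₀ h3.ne', div_div_div_eq]
    rw [e1, hτx, Real.log_div (by positivity) (by positivity), hx, Real.log_exp]
    ring

end Pool.TH332.DW.TH416

namespace Pool.TH332.DW
open Metric Set Filter Topology
open Pool.TH332.DW.TH416
variable {E : Type*} [NormedAddCommGroup E] [NormedSpace ℂ E] {Ω : Set E}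

theorem split_chain {z w : E} {s t : ℝ} (hs : 0 ≤ s) (ht : 0 ≤ t)
    (h : DiscChain Ω z w (s + t)) : ∃ a, DiscChain Ω z a s ∧ DiscChain Ω a w t := by
  obtain ⟨L, hL⟩ : ∃ L, L = s + t := ⟨_, rfl⟩
  rw [← hL] at h
  induction h generalizing s t with
  | @nil z hz =>
    have h1 : s = 0 := by linarith
    have h2 : t = 0 := by linarith
    rw [h1, h2]
    exact ⟨z, DiscChain.nil hz, DiscChain.nil hz⟩
  | @cons w L φ a b hφ hm ha hb h ih =>
    have ha' := mem_ball_iff.1 ha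
    have hb' := mem_ball_iff.1 hb
    rcases le_total (pdist a b) s with hle | hle
    · obtain ⟨c, hc1, hc2⟩ := ih (s := s - pdist a b) (t := t) (by linarith) ht (by linarith)
      refine ⟨c, ?_, hc2⟩
      have h1 := DiscChain.cons φ a b hφ hm ha hb hc1
      rwa [add_sub_cancel] at h1
    · obtain ⟨c, hc, hac, hcb⟩ := exists_cut ha' hb' hs hle
      have hcm : c ∈ ball (0 : ℂ) 1 := mem_ball_iff.2 hc
      refine ⟨φ c, ?_, ?_⟩
      · have h1 := DiscChain.cons φ a c hφ hm ha hcm (DiscChain.nil (hm hcm))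
        rwa [hac, add_zero] at h1
      · have h1 := DiscChain.cons φ c b hφ hm hcm hb h
        rw [hcb] at h1
        have e : pdist a b - s + L = t := by linarith
        rwa [e] at h1

end Pool.TH332.DW
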