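import Pool.Agent.TH332.DW.Facts
import Pool.Agent.TH332.DW.Grad

/-!
# Moebius maps of the unit disc
-/

set_option autoImplicit false

namespace Pool.TH332.DW.TH416

open Metric Set Filter Topology ComplexConjugate

/-- the pseudohyperbolic distance -/
noncomputable def pm (a b : ℂ) : ℝ := ‖(a - b) / (1 - (starRingEnd ℂ) a * b)‖

lemma pdist_eq (a b : ℂ) : pdist a b = (1 / 2) * Real.log ((1 + pm a b) / (1 - pm a b)) := rfl

/-- the Moebius map with `mob a 0 = a` -/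
noncomputable def mob (a z : ℂ) : ℂ := (z + a) / (1 + (starRingEnd ℂ) a * z)

lemma mem_ball_iff {z : ℂ} : z ∈ ball (0 : ℂ) 1 ↔ ‖z‖ < 1 := by
  rw [mem_ball_zero_iff]

lemma one_add_ne {a z : ℂ} (ha : ‖a‖ < 1) (hz : ‖z‖ < 1) : 1 + (starRingEnd ℂ) a * z ≠ 0 := by
  intro h
  have h1 : (starRingEnd ℂ) a * z = -1 := by
    rw [add_comm] at h
    exact eq_neg_of_add_eq_zero_left h
  have h2 : ‖(starRingEnd ℂ) a * z‖ = 1 := by rw [h1, norm_neg, norm_one]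
  rw [norm_mul, RCLike.norm_conj] at h2
  have h3 : ‖a‖ * ‖z‖ < 1 := by
    nlinarith [norm_nonneg a, norm_nonneg z]
  linarith

lemma one_sub_ne {a z : ℂ} (ha : ‖a‖ < 1) (hz : ‖z‖ < 1) : 1 - (starRingEnd ℂ) a * z ≠ 0 := by
  have h := one_add_ne ha (z := -z) (by rwa [norm_neg])
  rwa [mul_neg, ← sub_eq_add_neg] at h

lemma key_id (a z : ℂ) : ‖1 + (starRingEnd ℂ) a * z‖ ^ 2 - ‖z + a‖ ^ 2 =
    (1 - ‖a‖ ^ 2) * (1 - ‖z‖ ^ 2) := by
  rw [← Complex.normSq_eq_norm_sq, ← Complex.normSq_eq_norm_sq, ← Complex.normSq_eq_norm_sq,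
    ← Complex.normSq_eq_norm_sq, Complex.normSq_apply, Complex.normSq_apply, Complex.normSq_apply,
    Complex.normSq_apply]
  simp only [Complex.add_re, Complex.add_im, Complex.one_re, Complex.one_im, Complex.mul_re,
    Complex.mul_im, Complex.conj_re, Complex.conj_im]
  ring

lemma norm_mob_lt {a z : ℂ} (ha : ‖a‖ < 1) (hz : ‖z‖ < 1) : ‖mob a z‖ < 1 := by
  unfold mob
  have h0 := one_add_ne ha hz
  have h1 : 0 < ‖1 + (starRingEnd ℂ) a * z‖ := norm_pos_iff.2 h0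
  rw [norm_div, div_lt_one h1]
  have h2 := key_id a z
  have h3 : 0 < 1 - ‖a‖ ^ 2 := by nlinarith [norm_nonneg a]
  have h4 : 0 < 1 - ‖z‖ ^ 2 := by nlinarith [norm_nonneg z]
  have h5 : 0 < (1 - ‖a‖ ^ 2) * (1 - ‖z‖ ^ 2) := mul_pos h3 h4
  have h6 : ‖z + a‖ ^ 2 < ‖1 + (starRingEnd ℂ) a * z‖ ^ 2 := by linarith
  exact lt_of_pow_lt_pow_left₀ 2 h1.le h6

lemma mob_zero (a : ℂ) : mob a 0 = a := by
  unfold mob
  simp

lemma norm_sq_ne {a : ℂ} (ha : ‖a‖ < 1) : 1 - (starRingEnd ℂ) a * a ≠ 0 := one_sub_ne ha ha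

lemma mob_neg_mob {a z : ℂ} (ha : ‖a‖ < 1) (hz : ‖z‖ < 1) : mob a (mob (-a) z) = z := by
  have h0 : 1 - (starRingEnd ℂ) a * z ≠ 0 := one_sub_ne ha hz
  have h1 := norm_sq_ne ha
  have e1 : mob (-a) z = (z - a) / (1 - (starRingEnd ℂ) a * z) := by
    unfold mob
    rw [map_neg, neg_mul, ← sub_eq_add_neg, ← sub_eq_add_neg]
  rw [e1]
  unfold mob
  have e2 : 1 + (starRingEnd ℂ) a * ((z - a) / (1 - (starRingEnd ℂ) a * z)) =
      (1 - (starRingEnd ℂ) a * a) / (1 - (starRingEnd ℂ) a * z) := by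
    rw [eq_div_iff h0, add_mul, mul_assoc, div_mul_cancel₀ _ h0]
    ring
  have e3 : (z - a) / (1 - (starRingEnd ℂ) a * z) + a =
      z * (1 - (starRingEnd ℂ) a * a) / (1 - (starRingEnd ℂ) a * z) := by
    rw [eq_div_iff h0, add_mul, div_mul_cancel₀ _ h0]
    ring
  rw [e2, e3, div_div_div_cancel_right₀ h0, mul_div_cancel_right₀ _ h1]

lemma norm_mob_neg (a b : ℂ) : ‖mob (-a) b‖ = pm a b := by
  unfold mob pm
  rw [map_neg, neg_mul, ← sub_eq_add_neg, ← sub_eq_add_neg, norm_div, norm_div, norm_sub_rev]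

lemma pm_lt {a b : ℂ} (ha : ‖a‖ < 1) (hb : ‖b‖ < 1) : pm a b < 1 := by
  rw [← norm_mob_neg]
  exact norm_mob_lt (by rwa [norm_neg]) hb

lemma pm_nonneg (a b : ℂ) : 0 ≤ pm a b := norm_nonneg _

lemma differentiableOn_mob {a : ℂ} (ha : ‖a‖ < 1) :
    DifferentiableOn ℂ (mob a) (ball 0 1) := by
  unfold mob
  refine DifferentiableOn.div (by fun_prop) (by fun_prop) ?_
  intro z hz
  exact one_add_ne ha (mem_ball_iff.1 hz)

lemma mapsTo_mob {a : ℂ} (ha : ‖a‖ < 1) : MapsTo (mob a) (ball 0 1) (ball 0 1) := by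
  intro z hz
  rw [mem_ball_iff] at hz ⊢
  exact norm_mob_lt ha hz

lemma pm_mob {a x y : ℂ} (ha : ‖a‖ < 1) (hx : ‖x‖ < 1) (hy : ‖y‖ < 1) :
    pm (mob a x) (mob a y) = pm x y := by
  have hx0 := one_add_ne ha hx
  have hy0 := one_add_ne ha hy
  have hxy := one_sub_ne hx hy
  have ha0 := norm_sq_ne ha
  have hx1 : 1 + a * (starRingEnd ℂ) x ≠ 0 := by
    have h := one_add_ne hx ha
    rwa [mul_comm] at h
  have e1 : mob a x - mob a y = (x - y) * (1 - (starRingEnd ℂ) a * a) /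
      ((1 + (starRingEnd ℂ) a * x) * (1 + (starRingEnd ℂ) a * y)) := by
    unfold mob
    rw [div_sub_div _ _ hx0 hy0]
    congr 1
    ring
  have e2 : 1 - (starRingEnd ℂ) (mob a x) * mob a y = (1 - (starRingEnd ℂ) x * y) *
      (1 - (starRingEnd ℂ) a * a) /
      ((1 + a * (starRingEnd ℂ) x) * (1 + (starRingEnd ℂ) a * y)) := by
    unfold mob
    rw [map_div₀, map_add, map_add, map_mul, Complex.conj_conj, map_one, div_mul_div_comm,
      eq_div_iff (mul_ne_zero hx1 hy0), sub_mul, div_mul_cancel₀ _ (mul_ne_zero hx1 hy0)]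
    ring
  have hn : ‖1 + a * (starRingEnd ℂ) x‖ = ‖1 + (starRingEnd ℂ) a * x‖ := by
    rw [← RCLike.norm_conj (1 + a * (starRingEnd ℂ) x)]
    congr 1
    rw [map_add, map_mul, Complex.conj_conj, map_one]
  unfold pm
  rw [e1, e2, norm_div, norm_div, norm_div, norm_div, norm_mul, norm_mul, norm_mul, norm_mul, hn]
  have n1 : ‖1 + (starRingEnd ℂ) a * x‖ ≠ 0 := norm_ne_zero_iff.2 hx0
  have n2 : ‖1 + (starRingEnd ℂ) a * y‖ ≠ 0 := norm_ne_zero_iff.2 hy0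
  have n3 : ‖1 - (starRingEnd ℂ) x * y‖ ≠ 0 := norm_ne_zero_iff.2 hxy
  have n4 : ‖1 - (starRingEnd ℂ) a * a‖ ≠ 0 := norm_ne_zero_iff.2 ha0
  have key : ∀ A B C D F : ℝ, B ≠ 0 → C ≠ 0 → D ≠ 0 → F ≠ 0 →
      A * F / (B * C) / (D * F / (B * C)) = A / D := by
    intro A B C D F hB hC hD hF
    field_simp
  exact key _ _ _ _ _ n1 n2 n3 n4

lemma pdist_nonneg {a b : ℂ} (ha : ‖a‖ < 1) (hb : ‖b‖ < 1) : 0 ≤ pdist a b := by
  rw [pdist_eq]
  have h1 := pm_lt ha hb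
  have h2 := pm_nonneg a b
  have h3 : 1 ≤ (1 + pm a b) / (1 - pm a b) := by
    rw [one_le_div (by linarith)]
    linarith
  have := Real.log_nonneg h3
  linarith

lemma exp_pdist {a b : ℂ} (ha : ‖a‖ < 1) (hb : ‖b‖ < 1) :
    Real.exp (2 * pdist a b) = (1 + pm a b) / (1 - pm a b) := by
  rw [pdist_eq]
  have h1 := pm_lt ha hb
  have h2 := pm_nonneg a b
  have h3 : 0 < (1 + pm a b) / (1 - pm a b) := div_pos (by linarith) (by linarith)
  rw [show 2 * (1 / 2 * Real.log ((1 + pm a b) / (1 - pm a b))) =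
    Real.log ((1 + pm a b) / (1 - pm a b)) by ring, Real.exp_log h3]

end Pool.TH332.DW.TH416
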